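import Pool.Agent.H174.GM.Stmts2

/-!
# Project GM, leaf GCNT: the Gog residues count walks
-/

set_option autoImplicit false

namespace Pool.Agent.H52.GM174

open Finset Pool.Agent.H174.GM

theorem res_sum {k : ℕ} {ι : Type} (s : Finset ι) (f : ι → E k) :
    res (∑ i ∈ s, f i) = ∑ i ∈ s, res (f i) := by
  unfold res
  exact map_sum (HahnSeries.coeff.addMonoidHom (Γ := Ex k) (R := ℚ) (toLex fun _ => -1)) f s

theorem res_zsmul {k : ℕ} (n : ℤ) (f : E k) : res (n • f) = n • res f := by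
  unfold res
  exact HahnSeries.coeff_smul

theorem ge_one {k : ℕ} (l : Fin k) : Ge l 0 (1 : E k) := by
  intro γ hγ
  by_cases h : γ = 0
  · subst h
    exact le_refl _
  · exact absurd (by rw [HahnSeries.coeff_one, if_neg h]) hγ

theorem gres_zero_of (h2 : S_REG) {k m : ℕ} {a : Fin k → ℕ} (i : Fin k) (hi : m + k + 1 ≤ a i) :
    gres k m a = 0 := by
  unfold gres aa
  rw [Finset.mul_sum, Finset.sum_div, res_sum]
  refine Finset.sum_eq_zero (fun σ _ => ?_)
  rw [mul_smul_comm, smul_div_assoc, res_zsmul]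
  have h := h2 k (m + k + 1) a σ i 1 hi (fun l => ge_one l)
  rw [mul_one] at h
  rw [h, smul_zero]

theorem st_lower {k : ℕ} {a : Fin k → ℕ} (ha : StrictMono a) (h1 : ∀ i, 1 ≤ a i) :
    ∀ (n : ℕ) (hn : n < k), n + 1 ≤ a ⟨n, hn⟩ := by
  intro n
  induction n with
  | zero => intro hn; exact h1 _
  | succ n ih =>
    intro hn
    have e1 := ih (by omega)
    have e2 : a ⟨n, by omega⟩ < a ⟨n + 1, hn⟩ := ha (by simp [Fin.lt_def])
    omega

theorem st_upper {k : ℕ} {a : Fin k → ℕ} (ha : StrictMono a) (hk : 0 < k)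
    (hl : a ⟨k - 1, by omega⟩ ≤ k) :
    ∀ (n : ℕ) (hn : n < k), a ⟨k - 1 - n, by omega⟩ + n ≤ k := by
  intro n
  induction n with
  | zero => intro hn; exact hl
  | succ n ih =>
    intro hn
    have e1 := ih (by omega)
    have e2 : a ⟨k - 1 - (n + 1), by omega⟩ < a ⟨k - 1 - n, by omega⟩ :=
      ha (by simp only [Fin.lt_def]; omega)
    omega

theorem eq_st {k : ℕ} {a : Fin k → ℕ} (ha : StrictMono a) (h1 : ∀ i, 1 ≤ a i) (hk : 0 < k)
    (hl : a ⟨k - 1, by omega⟩ ≤ k) : a = st k := by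
  funext i
  have e1 := st_lower ha h1 i.1 i.2
  have e2 := st_upper ha hk hl (k - 1 - i.1) (by omega)
  have e3 : (⟨k - 1 - (k - 1 - i.1), by omega⟩ : Fin k) = i := by
    apply Fin.ext
    show k - 1 - (k - 1 - i.1) = i.1
    have := i.2
    omega
  rw [e3] at e2
  have e4 : (⟨i.1, i.2⟩ : Fin k) = i := rfl
  rw [e4] at e1
  have := i.2
  show a i = i.1 + 1
  omega

theorem st_mono (k : ℕ) : StrictMono (st k) := by
  intro i j hij
  unfold st
  have : i.1 < j.1 := hij
  omega

theorem NG_zero_of {k : ℕ} (m : ℕ) (b : Fin k → ℕ) (hb : ¬ (StrictMono b ∧ ∀ i, 1 ≤ b i)) :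
    NG k m b = 0 := by
  cases m with
  | zero =>
    unfold NG
    rw [if_neg]
    intro h
    apply hb
    rw [h]
    exact ⟨st_mono k, fun i => Nat.succ_le_succ (Nat.zero_le _)⟩
  | succ m =>
    unfold NG
    rw [if_neg hb]

theorem gcnt (h1 : S_GREC) (h2 : S_REG) : Pool.Agent.H174.GM.S_GCNT := by
  intro k m
  induction m with
  | zero =>
    intro a hk ha ha1
    by_cases h : a = st k
    · subst h
      have e : NG k 0 (st k) = 1 := by
        unfold NG
        rw [if_pos rfl]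
      rw [e, Nat.cast_one, mul_one]
    · have e : NG k 0 a = 0 := by
        unfold NG
        rw [if_neg h]
      rw [e, Nat.cast_zero, mul_zero]
      have hl : ¬ a ⟨k - 1, by omega⟩ ≤ k := fun hl => h (eq_st ha ha1 hk hl)
      exact gres_zero_of h2 ⟨k - 1, by omega⟩ (by omega)
  | succ m ih =>
    intro a hk ha ha1
    rw [h1 k m a hk ha ha1]
    have e : NG k (m + 1) a = ∑ b ∈ (Fintype.piFinset fun _ : Fin k => Finset.range (k + m + 1)).filter
        (fun b => ((∀ i, a i ≤ b i + 1) ∧ ∀ i j : Fin k, i.1 + 1 = j.1 → b i + 1 ≤ a j) ∧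
      (∀ i j : Fin k, i < j → b i < b j) ∧ ∀ i, 1 ≤ b i), NG k m b := by
      rw [NG, if_pos ⟨ha, ha1⟩]
      symm
      apply Finset.sum_subset
      · intro b hb
        simp only [Finset.mem_filter] at hb ⊢
        exact ⟨hb.1, hb.2.1⟩
      · intro b hb hb'
        simp only [Finset.mem_filter] at hb hb'
        apply NG_zero_of
        intro hc
        exact hb' ⟨hb.1, hb.2, fun i j hij => hc.1 hij, hc.2⟩
    rw [e, Nat.cast_sum, Finset.mul_sum]
    refine Finset.sum_congr rfl (fun b hb => ?_)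
    simp only [Finset.mem_filter] at hb
    exact ih b hk (fun i j hij => hb.2.2.1 i j hij) hb.2.2.2

end Pool.Agent.H52.GM174
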